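import Pool.Agent.L5helper45.WC.Cont
import Pool.Agent.L5helper45.CT.Step

set_option autoImplicit false

/-! # Iterated weighted containers from supersaturation (helper45) -/

namespace Pool.Agent.L5helper45.WC

open Finset
open Pool.Agent.Y940.CT (Spread Cov deg Ind)
open Pool.Agent.L5helper45.CT (HG balanced deg_ind spread_of edges_le IndE)

/-- supersaturation at the scale `s` with the factor `y` -/
def SSy (E : Finset (Finset ℕ)) (W : Finset ℕ) (a g K₀ s y : ℝ) : Prop :=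
  ∀ B ⊆ W, K₀ * s ≤ B.card →
    a * y * B.card * ((B.card : ℝ) / s) ^ g ≤ ((E.filter (fun e => e ⊆ B)).card : ℝ)

theorem wstep (k : ℕ) (hk : 3 ≤ k) {c a g K₀ η : ℝ} (hc : 1 ≤ c) (ha : 0 < a) (hK₀ : 0 < K₀)
    (hη : 0 < η) (hg : (1 + η) * (k - 1) < g) :
    ∃ δ : ℝ, 0 < δ ∧ δ ≤ 1 / 2 ∧ ∃ K₁ C : ℝ, 1 ≤ K₁ ∧ 0 < C ∧
      ∀ (E : Finset (Finset ℕ)) (W : Finset ℕ) (s y ϱ p : ℝ), HG E k c → 1 ≤ s → 1 ≤ y →
      0 < ϱ → y ^ (-(1 / ((k : ℝ) - 1))) ≤ ϱ → 0 ≤ p → p ≤ 3 * ϱ → SSy E W a g K₀ s y →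
      ∀ S : Finset ℕ, ∀ U ⊆ W, K₁ * s ≤ U.card →
      WCov p S (fun I => I ⊆ U ∧ IndE E I) U
        (Real.exp (C * (ϱ * s) * ((U.card : ℝ) / s) ^ (-η))) ((1 - δ) * U.card) := by
  classical
  have hk3 : (3 : ℝ) ≤ k := by exact_mod_cast hk
  have hk1 : (0 : ℝ) < (k : ℝ) - 1 := by linarith
  have hg0 : 0 < g := lt_trans (by positivity) hg
  set K : ℝ := max (2 * (k : ℝ) + 1) c with hK
  have hK1 : 1 ≤ K := le_max_of_le_right hc
  obtain ⟨δ₀, hδ₀, hδ₁, τ₀, hτ₀, hτ₁, hcont⟩ := containers k (by omega) K hK1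
  set ζ : ℝ := g / ((k : ℝ) - 1) - (1 + η) with hζ
  have hζ0 : 0 < ζ := by
    rw [hζ, sub_pos, lt_div_iff₀ hk1]
    exact hg
  set a₂ : ℝ := a * (2 : ℝ) ^ (-(g + 2)) with ha₂
  have ha₂0 : 0 < a₂ := by positivity
  -- the threshold
  set T : ℝ := max 1 (τ₀ ^ (-((k : ℝ) - 1))) / a₂ with hT
  have hT0 : 0 < T := by
    have : (0 : ℝ) < max 1 (τ₀ ^ (-((k : ℝ) - 1))) := lt_of_lt_of_le one_pos (le_max_left _ _)
    positivity
  set K₁ : ℝ := max (max 1 c) (max (2 * K₀) (T ^ (1 / g))) with hK₁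
  set a₃ : ℝ := a₂ ^ (-(1 / ((k : ℝ) - 1))) with ha₃
  have ha₃0 : 0 < a₃ := Real.rpow_pos_of_pos ha₂0 _
  have hkn : (0 : ℝ) < ((k - 1 : ℕ) : ℝ) := by exact_mod_cast (by omega : 0 < k - 1)
  refine ⟨min δ₀ (1 / 2), lt_min hδ₀ (by norm_num), min_le_right _ _, K₁,
    ((k - 1 : ℕ) : ℝ) * (2 * a₃ * (1 + η) / ζ + 3), ?_, by positivity, ?_⟩
  · exact (le_max_left 1 c).trans (le_max_left _ _)
  intro E W s y ϱ p hE hs hy hϱ0 hyϱ hp0 hpϱ hSS S U hUW hU
  have hs0 : 0 < s := by linarith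
  have hy0 : 0 < y := by linarith
  set κ : ℝ := (U.card : ℝ) / s with hκ
  have hκ1 : K₁ ≤ κ := by rw [hκ, le_div_iff₀ hs0]; exact hU
  have hκ_one : 1 ≤ κ := ((le_max_left 1 c).trans (le_max_left _ _)).trans hκ1
  have hκc : c ≤ κ := ((le_max_right 1 c).trans (le_max_left _ _)).trans hκ1
  have hκ2 : 2 * K₀ ≤ κ := ((le_max_left _ _).trans (le_max_right _ _)).trans hκ1
  have hκT : T ^ (1 / g) ≤ κ := ((le_max_right _ _).trans (le_max_right _ _)).trans hκ1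
  have hκ0 : 0 < κ := by linarith
  have hUκ : (U.card : ℝ) = κ * s := by rw [hκ]; field_simp
  have hUc : c ≤ (U.card : ℝ) := by
    rw [hUκ]
    nlinarith
  have hU0 : (0 : ℝ) < U.card := by linarith
  have hκg : T ≤ κ ^ g := by
    have h1 := Real.rpow_le_rpow (by positivity) hκT hg0.le
    rwa [← Real.rpow_mul hT0.le, one_div, inv_mul_cancel₀ hg0.ne', Real.rpow_one] at h1
  have hκg0 : 0 < κ ^ g := Real.rpow_pos_of_pos hκ0 _
  set D : ℝ := a₂ * y * κ ^ g with hD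
  have hD1' : max 1 (τ₀ ^ (-((k : ℝ) - 1))) ≤ D := by
    rw [hT, div_le_iff₀ ha₂0, mul_comm] at hκg
    refine hκg.trans ?_
    rw [hD]
    apply mul_le_mul_of_nonneg_right _ hκg0.le
    exact le_mul_of_one_le_right ha₂0.le hy
  have hD1 : 1 ≤ D := (le_max_left _ _).trans hD1'
  have hD0 : 0 < D := by linarith
  set τ : ℝ := D ^ (-(1 / ((k : ℝ) - 1))) with hτ
  have hτ0 : 0 < τ := Real.rpow_pos_of_pos hD0 _
  have hττ₀ : τ ≤ τ₀ := by
    have h1 := (le_max_right _ _).trans hD1'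
    have h2 : D ^ (-(1 / ((k : ℝ) - 1))) ≤ (τ₀ ^ (-((k : ℝ) - 1))) ^ (-(1 / ((k : ℝ) - 1))) :=
      Real.rpow_le_rpow_of_nonpos (by positivity) h1 (by
        rw [neg_nonpos]; positivity)
    rw [← Real.rpow_mul hτ₀.le] at h2
    have h3 : -((k : ℝ) - 1) * -(1 / ((k : ℝ) - 1)) = 1 := by field_simp
    rw [h3, Real.rpow_one] at h2
    exact h2
  have hτ1 : τ ≤ 1 := hττ₀.trans hτ₁
  have hDτ : D * τ ^ (k - 1) = 1 := by
    rw [hτ, ← Real.rpow_natCast, ← Real.rpow_mul hD0.le]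
    have h1 : -(1 / ((k : ℝ) - 1)) * ((k - 1 : ℕ) : ℝ) = -1 := by
      rw [Nat.cast_sub (by omega)]
      push_cast
      field_simp
    rw [h1, Real.rpow_neg_one, mul_inv_cancel₀ hD0.ne']
  -- balanced supersaturation
  have hbal : ∀ B ⊆ U, (U.card : ℝ) / 2 ≤ B.card →
      D * U.card < ((E.filter (fun e => e ⊆ B)).card : ℝ) := by
    intro B hB hBc
    have h1 : K₀ * s ≤ B.card := by
      refine le_trans ?_ hBc
      rw [hUκ]
      nlinarith
    refine lt_of_lt_of_le ?_ (hSS B (hB.trans hUW) h1)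
    have h2 : κ / 2 ≤ (B.card : ℝ) / s := by
      rw [le_div_iff₀ hs0]
      rw [hUκ] at hBc
      linarith
    have h3 : (κ / 2) ^ g ≤ ((B.card : ℝ) / s) ^ g := Real.rpow_le_rpow (by linarith) h2 hg0.le
    have h4 : (κ / 2) ^ g = κ ^ g * (2 : ℝ) ^ (-g) := by
      rw [Real.div_rpow hκ0.le (by norm_num), Real.rpow_neg (by norm_num)]
      rfl
    have h5 : (2 : ℝ) ^ (-(g + 2)) = (2 : ℝ) ^ (-g) / 4 := by
      rw [neg_add, Real.rpow_add (by norm_num)]
      norm_num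
      ring
    have h6 : (0 : ℝ) < κ ^ g * (2 : ℝ) ^ (-g) :=
      mul_pos (Real.rpow_pos_of_pos hκ0 _) (Real.rpow_pos_of_pos two_pos _)
    have hay : 0 < a * y := by positivity
    calc D * U.card = (a * y) * (U.card / 4) * (κ ^ g * (2 : ℝ) ^ (-g)) := by
          rw [hD, ha₂, h5]; ring
      _ < (a * y) * (U.card / 2) * (κ ^ g * (2 : ℝ) ^ (-g)) := by
          apply mul_lt_mul_of_pos_right _ h6
          apply mul_lt_mul_of_pos_left _ hay
          linarith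
      _ ≤ (a * y) * B.card * (κ ^ g * (2 : ℝ) ^ (-g)) := by
          apply mul_le_mul_of_nonneg_right _ h6.le
          exact mul_le_mul_of_nonneg_left hBc hay.le
      _ ≤ (a * y) * B.card * ((B.card : ℝ) / s) ^ g := by
          rw [← h4]
          exact mul_le_mul_of_nonneg_left h3 (mul_nonneg hay.le (Nat.cast_nonneg _))
  obtain ⟨F, hFE, hFU, hF1, hF2⟩ := balanced E hE.unif (by omega) U hD1 hbal
  have hspread := spread_of hE hFE hFU hD0 hτ0 hτ1 hF1 hF2 (le_max_left _ _) (le_max_right _ _)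
    (le_of_eq hDτ.symm)
  -- `τ |U| ≥ 1`
  have hτU : 1 ≤ U.card * τ := by
    have h1 : D ≤ c * U.card := by
      have e1 := hbal U (Subset.refl U) (by linarith)
      have e2 := edges_le hE (by omega) (by linarith) U
      have e3 : D * U.card ≤ (c * U.card) * U.card := by
        calc D * U.card ≤ _ := e1.le
          _ ≤ _ := e2
          _ = _ := by ring
      exact le_of_mul_le_mul_right e3 hU0
    have h2 : D ^ (-(1 / 2 : ℝ)) ≤ τ := by
      rw [hτ]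
      apply Real.rpow_le_rpow_of_exponent_le hD1
      rw [neg_le_neg_iff]
      apply one_div_le_one_div_of_le (by norm_num)
      linarith
    have h3 : (c * U.card) ^ (-(1 / 2 : ℝ)) ≤ D ^ (-(1 / 2 : ℝ)) :=
      Real.rpow_le_rpow_of_nonpos hD0 h1 (by norm_num)
    have h4 : ((U.card : ℝ) * U.card) ^ (-(1 / 2 : ℝ)) ≤ (c * U.card) ^ (-(1 / 2 : ℝ)) :=
      Real.rpow_le_rpow_of_nonpos (mul_pos (by linarith) hU0)
        (mul_le_mul_of_nonneg_right hUc hU0.le) (by norm_num)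
    have h5 : ((U.card : ℝ) * U.card) ^ (-(1 / 2 : ℝ)) = (U.card : ℝ)⁻¹ := by
      rw [← sq, ← Real.rpow_natCast, ← Real.rpow_mul hU0.le]
      norm_num
      rw [Real.rpow_neg_one]
    rw [h5] at h4
    calc (1 : ℝ) = U.card * (U.card : ℝ)⁻¹ := (mul_inv_cancel₀ hU0.ne').symm
      _ ≤ U.card * τ := mul_le_mul_of_nonneg_left (h4.trans (h3.trans h2)) hU0.le
  set q : ℕ := ⌈(U.card : ℝ) * τ⌉₊ with hq
  have hq1 : (U.card : ℝ) * τ ≤ q := Nat.le_ceil _
  have hq2 : (q : ℝ) ≤ 2 * τ * U.card := by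
    have := Nat.ceil_lt_add_one (mul_nonneg hU0.le hτ0.le)
    linarith
  set x : ℝ := κ ^ (-(1 + η)) with hx
  have hx0 : 0 < x := Real.rpow_pos_of_pos hκ0 _
  have hx1 : x ≤ 1 := Real.rpow_le_one_of_one_le_of_nonpos hκ_one (by linarith)
  have hmain := hcont U _ D τ x p q S hD0 hτ0 hττ₀ hq1 hq2 hx0 hx1 hp0 hspread
  clear_value q x τ D κ K₁ T a₃ a₂ ζ K
  clear hκT hκ2 hκ1 hκg hD1' hDτ hbal hcont hSS hspread hF1 hF2 hT0 hT hK₁
  refine hmain.mono ?_ ?_ ?_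
  · rintro I - ⟨hI1, hI2⟩
    refine ⟨hI1, fun e he => ?_⟩
    by_contra hne
    have : e ∈ F := by
      by_contra h
      exact hne (if_neg h)
    exact hI2 e (hFE this) he
  · have hlogκ : 0 ≤ Real.log κ := Real.log_nonneg hκ_one
    have hinv : x⁻¹ = Real.exp ((1 + η) * Real.log κ) := by
      rw [hx, ← Real.rpow_neg hκ0.le, neg_neg, Real.rpow_def_of_pos hκ0, mul_comm]
    have h1 : x⁻¹ ^ q * (1 + p * x) ^ U.card ≤
        Real.exp (q * ((1 + η) * Real.log κ) + U.card * (p * x)) := by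
      rw [Real.exp_add, Real.exp_nat_mul, Real.exp_nat_mul, ← hinv]
      apply mul_le_mul_of_nonneg_left _ (by positivity)
      apply pow_le_pow_left₀ (by positivity)
      have := Real.add_one_le_exp (p * x)
      linarith
    have h2 : (x⁻¹ ^ q * (1 + p * x) ^ U.card) ^ (k - 1) ≤
        Real.exp (((k - 1 : ℕ) : ℝ) * (q * ((1 + η) * Real.log κ) + U.card * (p * x))) := by
      rw [Real.exp_nat_mul]
      exact pow_le_pow_left₀ (by positivity) h1 _
    refine h2.trans (Real.exp_le_exp.2 ?_)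
    have hτle : τ ≤ a₃ * ϱ * κ ^ (-(g / ((k : ℝ) - 1))) := by
      rw [hτ, hD, Real.mul_rpow (by positivity) hκg0.le, Real.mul_rpow ha₂0.le hy0.le,
        ← Real.rpow_mul hκ0.le, ← ha₃]
      have e1 : g * -(1 / ((k : ℝ) - 1)) = -(g / ((k : ℝ) - 1)) := by ring
      rw [e1]
      apply mul_le_mul_of_nonneg_right _ (Real.rpow_pos_of_pos hκ0 _).le
      exact mul_le_mul_of_nonneg_left hyϱ ha₃0.le
    have hlogle : Real.log κ ≤ κ ^ ζ / ζ := Real.log_le_rpow_div hκ0.le hζ0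
    have e1 : (q : ℝ) * ((1 + η) * Real.log κ) ≤
        (2 * a₃ * (1 + η) / ζ) * (ϱ * s) * κ ^ (-η) := by
      have e2 : (q : ℝ) ≤ 2 * (a₃ * ϱ * κ ^ (-(g / ((k : ℝ) - 1)))) * (κ * s) := by
        refine hq2.trans ?_
        rw [hUκ]
        gcongr
      have e3 : κ ^ (-(g / ((k : ℝ) - 1))) * κ * κ ^ ζ = κ ^ (-η) := by
        rw [← Real.rpow_add_one hκ0.ne', ← Real.rpow_add hκ0]
        congr 1
        rw [hζ]
        ring
      calc (q : ℝ) * ((1 + η) * Real.log κ) ≤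
            (2 * (a₃ * ϱ * κ ^ (-(g / ((k : ℝ) - 1)))) * (κ * s)) * ((1 + η) * (κ ^ ζ / ζ)) := by
            apply mul_le_mul e2 _ (by positivity) (by positivity)
            exact mul_le_mul_of_nonneg_left hlogle (by linarith)
        _ = (2 * a₃ * (1 + η) / ζ) * (ϱ * s) * (κ ^ (-(g / ((k : ℝ) - 1))) * κ * κ ^ ζ) := by ring
        _ = _ := by rw [e3]
    have e4 : (U.card : ℝ) * (p * x) ≤ 3 * (ϱ * s) * κ ^ (-η) := by
      have e5 : κ * κ ^ (-(1 + η)) = κ ^ (-η) := by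
        rw [mul_comm, ← Real.rpow_add_one hκ0.ne']
        congr 1
        ring
      calc (U.card : ℝ) * (p * x) ≤ (κ * s) * (3 * ϱ * x) := by
            rw [hUκ]
            gcongr
        _ = 3 * (ϱ * s) * (κ * κ ^ (-(1 + η))) := by rw [hx]; ring
        _ = _ := by rw [e5]
    calc ((k - 1 : ℕ) : ℝ) * (q * ((1 + η) * Real.log κ) + U.card * (p * x)) ≤
          ((k - 1 : ℕ) : ℝ) * ((2 * a₃ * (1 + η) / ζ) * (ϱ * s) * κ ^ (-η) +
            3 * (ϱ * s) * κ ^ (-η)) := mul_le_mul_of_nonneg_left (add_le_add e1 e4) hkn.le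
      _ = _ := by ring
  · apply mul_le_mul_of_nonneg_right _ hU0.le
    have := min_le_left δ₀ (1 / 2)
    linarith

theorem wcov_sub {p : ℝ} {S : Finset ℕ} {P : Finset ℕ → Prop} {Z U : Finset ℕ} {n γ : ℝ}
    (h : WCov p S P Z n γ) (hZU : Z ⊆ U) : WCov p S P U n γ := by
  obtain ⟨C, h1, h2, h3⟩ := h
  exact ⟨C, h1, fun c hc => ⟨(h2 c hc).1.trans hZU, (h2 c hc).2⟩, h3⟩

/-- the iteration -/
theorem witer (k : ℕ) (hk : 3 ≤ k) {c a g K₀ η : ℝ} (hc : 1 ≤ c) (ha : 0 < a) (hK₀ : 0 < K₀)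
    (hη : 0 < η) (hg : (1 + η) * (k - 1) < g) :
    ∃ K₁ C : ℝ, 1 ≤ K₁ ∧ 0 < C ∧
      ∀ (E : Finset (Finset ℕ)) (W : Finset ℕ) (s y ϱ p : ℝ), HG E k c → 1 ≤ s → 1 ≤ y →
      0 < ϱ → y ^ (-(1 / ((k : ℝ) - 1))) ≤ ϱ → 0 ≤ p → p ≤ 3 * ϱ → SSy E W a g K₀ s y →
      ∀ K : ℝ, K₁ ≤ K → ∀ S : Finset ℕ,
      WCov p S (fun I => I ⊆ W ∧ IndE E I) W (Real.exp (C * (ϱ * s) * K ^ (-η))) (K * s) := by
  classical
  obtain ⟨δ, hδ0, hδ1, K₁, C, hK₁, hC, hstep⟩ := wstep k hk hc ha hK₀ hη hg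
  set ρ : ℝ := (1 - δ)⁻¹ with hρ
  have h1δ : 0 < 1 - δ := by linarith
  have hρ1 : 1 < ρ := by
    rw [hρ, one_lt_inv₀ h1δ]
    linarith
  have hρ0 : 0 < ρ := by linarith
  set x : ℝ := ρ ^ (-η) with hx
  have hx0 : 0 < x := by positivity
  have hx1 : x < 1 := by
    rw [hx]
    exact Real.rpow_lt_one_of_one_lt_of_neg hρ1 (by linarith)
  have h1x : 0 < 1 - x := by linarith
  refine ⟨K₁, C / (1 - x), hK₁, by positivity, ?_⟩
  intro E W s y ϱ p hE hs hy hϱ0 hyϱ hp0 hpϱ hSS K hK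
  have hs0 : 0 < s := by linarith
  have hK0 : 0 < K := by linarith
  have hKη : 0 < K ^ (-η) := by positivity
  have hCϱ : 0 ≤ C * (ϱ * s) * K ^ (-η) := by positivity
  have key : ∀ (j : ℕ), ∀ U ⊆ W, (U.card : ℝ) ≤ K * ρ ^ j * s → ∀ S : Finset ℕ,
      WCov p S (fun I => I ⊆ U ∧ IndE E I) U
        (Real.exp (C * (ϱ * s) * K ^ (-η) * ∑ i ∈ range j, x ^ i)) (K * s) := by
    intro j
    induction j with
    | zero =>
      intro U _ hU S
      rw [range_zero, sum_empty, mul_zero, Real.exp_zero]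
      refine WCov.one (C := U) (Subset.refl U) ?_ fun I hI => hI.1
      simpa using hU
    | succ j ih =>
      intro U hUW hU S
      by_cases hsm : (U.card : ℝ) ≤ K * ρ ^ j * s
      · refine (ih U hUW hsm S).mono (fun I _ hI => hI) (Real.exp_le_exp.2 ?_) le_rfl
        apply mul_le_mul_of_nonneg_left _ hCϱ
        exact sum_le_sum_of_subset_of_nonneg (range_subset_range.2 (Nat.le_succ j)) fun i _ _ =>
          pow_nonneg hx0.le i
      · push Not at hsm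
        have hρj : 1 ≤ ρ ^ j := one_le_pow₀ hρ1.le
        have h1 : K₁ * s ≤ U.card := by
          refine le_trans ?_ hsm.le
          apply mul_le_mul_of_nonneg_right _ hs0.le
          nlinarith
        have h2 := hstep E W s y ϱ p hE hs hy hϱ0 hyϱ hp0 hpϱ hSS S U hUW h1
        have h3 : C * (ϱ * s) * ((U.card : ℝ) / s) ^ (-η) ≤ C * (ϱ * s) * K ^ (-η) * x ^ j := by
          have e1 : K * ρ ^ j ≤ (U.card : ℝ) / s := by
            rw [le_div_iff₀ hs0]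
            exact hsm.le
          have e2 : ((U.card : ℝ) / s) ^ (-η) ≤ (K * ρ ^ j) ^ (-η) :=
            Real.rpow_le_rpow_of_nonpos (by positivity) e1 (by linarith)
          have e3 : (K * ρ ^ j) ^ (-η) = K ^ (-η) * x ^ j := by
            rw [Real.mul_rpow hK0.le (by positivity), hx, ← Real.rpow_natCast, ← Real.rpow_natCast,
              ← Real.rpow_mul hρ0.le, ← Real.rpow_mul hρ0.le, mul_comm (j : ℝ)]
          rw [e3] at e2
          calc C * (ϱ * s) * ((U.card : ℝ) / s) ^ (-η) ≤ C * (ϱ * s) * (K ^ (-η) * x ^ j) :=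
                mul_le_mul_of_nonneg_left e2 (by positivity)
            _ = _ := by ring
        have h4 : (1 - δ) * U.card ≤ K * ρ ^ j * s := by
          calc (1 - δ) * U.card ≤ (1 - δ) * (K * ρ ^ (j + 1) * s) :=
                mul_le_mul_of_nonneg_left hU h1δ.le
            _ = K * ρ ^ j * s * ((1 - δ) * ρ) := by ring
            _ = K * ρ ^ j * s := by rw [hρ, mul_inv_cancel₀ h1δ.ne', mul_one]
        have h5 : WCov p S (fun I => I ⊆ U ∧ IndE E I) U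
            (Real.exp (C * (ϱ * s) * K ^ (-η) * x ^ j) *
              Real.exp (C * (ϱ * s) * K ^ (-η) * ∑ i ∈ range j, x ^ i)) (K * s) := by
          refine WCov.comp hp0 (h2.mono (fun I _ hI => hI) (Real.exp_le_exp.2 h3) h4)
            (Real.exp_pos _).le ?_
          intro T Z _ hZU hZ
          exact (ih Z (hZU.trans hUW) hZ T).mono
            (fun I _ (hI : I ⊆ Z ∧ I ⊆ U ∧ IndE E I) => ⟨hI.1, hI.2.2⟩) le_rfl le_rfl
            |> fun h => wcov_sub h hZU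
        refine h5.mono (fun I _ hI => hI) (le_of_eq ?_) le_rfl
        rw [← Real.exp_add, sum_range_succ]
        congr 1
        ring
  obtain ⟨j, hj⟩ : ∃ j : ℕ, (W.card : ℝ) ≤ K * ρ ^ j * s := by
    obtain ⟨j, hj⟩ := pow_unbounded_of_one_lt ((W.card : ℝ) / (K * s)) hρ1
    refine ⟨j, ?_⟩
    rw [div_lt_iff₀ (by positivity)] at hj
    calc (W.card : ℝ) ≤ ρ ^ j * (K * s) := hj.le
      _ = _ := by ring
  intro S
  refine (key j W (Subset.refl W) hj S).mono (fun I _ hI => hI) (Real.exp_le_exp.2 ?_) le_rfl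
  have h6 : ∑ i ∈ range j, x ^ i ≤ 1 / (1 - x) := by
    rw [geom_sum_eq hx1.ne, ← neg_div_neg_eq, neg_sub, neg_sub]
    apply div_le_div_of_nonneg_right _ h1x.le
    have : 0 ≤ x ^ j := pow_nonneg hx0.le j
    linarith
  calc C * (ϱ * s) * K ^ (-η) * ∑ i ∈ range j, x ^ i ≤ C * (ϱ * s) * K ^ (-η) * (1 / (1 - x)) :=
        mul_le_mul_of_nonneg_left h6 hCϱ
    _ = _ := by ring

end Pool.Agent.L5helper45.WC
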