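import Pool.Agent.Y940.CT.Cont

/-!
# A container lemma with fingerprints and weights (helper45)

The algorithm is that of `Pool.Agent.Y940.CT.Cont`; the covers record the fingerprints.
-/

set_option autoImplicit false

open Finset

namespace Pool.Agent.L5helper45.WC

open Pool.Agent.Y940.CT (Spread deg Ind act act_nonneg act_le act_ne stalled total_le_sum_deg
  link_sum deg_mono)

/-- The sets `I ⊇ S` with property `P` are covered by subsets of `U` of size at most `γ`; for each
there is a pair `(T, C)` with `S ⊆ T ⊆ I ⊆ C`, and the sum of `p ^ |T \ S|` over the pairs is at most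
`W`. -/
def WCov (p : ℝ) (S : Finset ℕ) (P : Finset ℕ → Prop) (U : Finset ℕ) (W γ : ℝ) : Prop :=
  ∃ 𝓕 : Finset (Finset ℕ × Finset ℕ), (∑ z ∈ 𝓕, p ^ (z.1 \ S).card) ≤ W ∧
    (∀ z ∈ 𝓕, z.2 ⊆ U ∧ (z.2.card : ℝ) ≤ γ ∧ S ⊆ z.1) ∧
    ∀ I, S ⊆ I → P I → ∃ z ∈ 𝓕, z.1 ⊆ I ∧ I ⊆ z.2

theorem WCov.mono {p : ℝ} {S : Finset ℕ} {P P' : Finset ℕ → Prop} {U : Finset ℕ} {W W' γ γ' : ℝ}
    (h : WCov p S P U W γ) (hP : ∀ I, S ⊆ I → P' I → P I) (hW : W ≤ W') (hγ : γ ≤ γ') :
    WCov p S P' U W' γ' := by
  obtain ⟨F, h1, h2, h3⟩ := h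
  exact ⟨F, h1.trans hW, fun z hz => ⟨(h2 z hz).1, (h2 z hz).2.1.trans hγ, (h2 z hz).2.2⟩,
    fun I hS hI => h3 I hS (hP I hS hI)⟩

/-- branching at `v` -/
theorem WCov.branch {p : ℝ} (hp : 0 ≤ p) {S : Finset ℕ} {v : ℕ} (hv : v ∉ S)
    {P P' : Finset ℕ → Prop} {U : Finset ℕ} {W W' γ : ℝ} (h : WCov p S P U W γ)
    (h' : WCov p (insert v S) P' U W' γ) :
    WCov p S (fun I => P I ∨ (v ∈ I ∧ P' I)) U (W + p * W') γ := by
  classical
  obtain ⟨F, h1, h2, h3⟩ := h
  obtain ⟨F', h1', h2', h3'⟩ := h'
  refine ⟨F ∪ F', ?_, ?_, ?_⟩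
  · have e1 : ∑ z ∈ F ∪ F', p ^ (z.1 \ S).card ≤
        ∑ z ∈ F, p ^ (z.1 \ S).card + ∑ z ∈ F', p ^ (z.1 \ S).card := by
      rw [← sum_union_inter]
      exact le_add_of_nonneg_right (sum_nonneg fun z _ => pow_nonneg hp _)
    have e2 : ∑ z ∈ F', p ^ (z.1 \ S).card = p * ∑ z ∈ F', p ^ (z.1 \ insert v S).card := by
      rw [mul_sum]
      refine sum_congr rfl fun z hz => ?_
      have e3 : z.1 \ S = insert v (z.1 \ insert v S) := by
        ext w
        rw [mem_sdiff, mem_insert, mem_sdiff, mem_insert]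
        constructor
        · rintro ⟨h4, h5⟩
          by_cases hw : w = v
          · exact Or.inl hw
          · exact Or.inr ⟨h4, fun h6 => h6.elim hw h5⟩
        · rintro (rfl | ⟨h4, h5⟩)
          · exact ⟨(h2' z hz).2.2 (mem_insert_self _ _), hv⟩
          · exact ⟨h4, fun h6 => h5 (Or.inr h6)⟩
      rw [e3, card_insert_of_notMem (fun h4 => (mem_sdiff.1 h4).2 (mem_insert_self _ _)), pow_succ,
        mul_comm]
    have e4 : p * ∑ z ∈ F', p ^ (z.1 \ insert v S).card ≤ p * W' :=
      mul_le_mul_of_nonneg_left h1' hp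
    linarith
  · intro z hz
    rcases mem_union.1 hz with h | h
    · exact h2 z h
    · exact ⟨(h2' z h).1, (h2' z h).2.1, (subset_insert v S).trans (h2' z h).2.2⟩
  · rintro I hS (hI | ⟨hvI, hI⟩)
    · obtain ⟨z, hz, hz2⟩ := h3 I hS hI
      exact ⟨z, mem_union_left _ hz, hz2⟩
    · obtain ⟨z, hz, hz2⟩ := h3' I (insert_subset hvI hS) hI
      exact ⟨z, mem_union_right _ hz, hz2⟩

theorem WCov.one {p : ℝ} {S : Finset ℕ} {P : Finset ℕ → Prop} {U C : Finset ℕ} {γ : ℝ}
    (hC : C ⊆ U) (hγ : (C.card : ℝ) ≤ γ) (hP : ∀ I, P I → I ⊆ C) : WCov p S P U 1 γ :=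
  ⟨{(S, C)}, by simp, fun z hz => by
      rw [mem_singleton.1 hz]
      exact ⟨hC, hγ, Subset.refl _⟩,
    fun I hS hI => ⟨(S, C), mem_singleton_self _, hS, hP I hI⟩⟩

theorem sum_biUnion_le' {ι κ : Type} [DecidableEq κ] (s : Finset ι) (t : ι → Finset κ)
    (f : κ → ℝ) (hf : ∀ z, 0 ≤ f z) : ∑ z ∈ s.biUnion t, f z ≤ ∑ y ∈ s, ∑ z ∈ t y, f z := by
  classical
  induction s using Finset.induction_on with
  | empty => simp
  | insert a s ha ih =>
    rw [biUnion_insert, sum_insert ha]
    have h1 : ∑ z ∈ t a ∪ s.biUnion t, f z ≤ ∑ z ∈ t a, f z + ∑ z ∈ s.biUnion t, f z := by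
      rw [← sum_union_inter]
      exact le_add_of_nonneg_right (sum_nonneg fun z _ => hf z)
    linarith

/-- composition -/
theorem WCov.comp {p : ℝ} (hp : 0 ≤ p) {S : Finset ℕ} {P : Finset ℕ → Prop} {U : Finset ℕ}
    {W W' γ γ' : ℝ} (h : WCov p S P U W γ) (hW' : 0 ≤ W')
    (h' : ∀ T Z : Finset ℕ, S ⊆ T → Z ⊆ U → (Z.card : ℝ) ≤ γ →
      WCov p T (fun I => I ⊆ Z ∧ P I) U W' γ') :
    WCov p S P U (W * W') γ' := by
  classical
  obtain ⟨F, h1, h2, h3⟩ := h
  choose! G g1 g2 g3 using fun (z : Finset ℕ × Finset ℕ) (hz : z ∈ F) =>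
    h' z.1 z.2 (h2 z hz).2.2 (h2 z hz).1 (h2 z hz).2.1
  refine ⟨F.biUnion G, ?_, ?_, ?_⟩
  · calc ∑ z ∈ F.biUnion G, p ^ (z.1 \ S).card ≤ ∑ y ∈ F, ∑ z ∈ G y, p ^ (z.1 \ S).card :=
          sum_biUnion_le' _ _ _ fun z => pow_nonneg hp _
      _ ≤ ∑ y ∈ F, p ^ (y.1 \ S).card * W' := by
          refine sum_le_sum fun y hy => ?_
          have e1 : ∀ z ∈ G y, p ^ (z.1 \ S).card = p ^ (y.1 \ S).card * p ^ (z.1 \ y.1).card := by
            intro z hz
            rw [← pow_add]
            congr 1
            have hyz : y.1 ⊆ z.1 := (g2 y hy z hz).2.2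
            have hSy : S ⊆ y.1 := (h2 y hy).2.2
            rw [card_sdiff_of_subset (hSy.trans hyz), card_sdiff_of_subset hyz,
              card_sdiff_of_subset hSy]
            have e3 := card_le_card hyz
            have e4 := card_le_card hSy
            omega
          rw [sum_congr rfl e1, ← mul_sum]
          exact mul_le_mul_of_nonneg_left (g1 y hy) (pow_nonneg hp _)
      _ = (∑ y ∈ F, p ^ (y.1 \ S).card) * W' := (sum_mul _ _ _).symm
      _ ≤ W * W' := mul_le_mul_of_nonneg_right h1 hW'
  · intro z hz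
    obtain ⟨y, hy, hzy⟩ := mem_biUnion.1 hz
    exact ⟨(g2 y hy z hzy).1, (g2 y hy z hzy).2.1, (h2 y hy).2.2.trans (g2 y hy z hzy).2.2⟩
  · intro I hS hI
    obtain ⟨y, hy, hy1, hy2⟩ := h3 I hS hI
    obtain ⟨z, hz, hz2⟩ := g3 y hy I hy1 ⟨hy2, hI⟩
    exact ⟨z, mem_biUnion.2 ⟨y, hy, hz⟩, hz2⟩

/-- One phase of the algorithm: the uniformity drops by one. -/
theorem phase {U : Finset ℕ} {s : ℕ} {w : Finset ℕ → ℝ} {D K C τ γ n x p : ℝ}
    (hw : Spread U (s + 1) w D K τ) (hD : 0 < D) (hK : 1 ≤ K) (hτ : 0 < τ)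
    (hτ1 : τ ≤ 1) {q : ℕ} (hq1 : U.card * τ ≤ q) (hq2 : (q : ℝ) ≤ 2 * τ * U.card)
    (hC : C = 2 ^ (s + 3) * K ^ 2)
    (hγ : (U.card : ℝ) - U.card / (2 * K) + q ≤ γ) (hn : 1 ≤ n)
    (hx0 : 0 < x) (hx1 : x ≤ 1) (hp : 0 ≤ p)
    (IH : ∀ g S, Spread U s g (τ * D / 4) (4 * (C + K)) τ →
      WCov p S (fun I => I ⊆ U ∧ Ind g I) U n γ) :
    ∀ (a : ℕ) (A T : Finset ℕ) (g : Finset ℕ → ℝ) (q' t : ℕ) (S : Finset ℕ), A.card = a →
      A ⊆ U → T ⊆ U →
      q' + t = q → T.card ≤ t → (∀ f, 0 ≤ g f) → (∀ f, g f ≠ 0 → f ⊆ U ∧ f.card = s) →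
      (t * (D / 4) ≤ ∑ f ∈ U.powerset, g f) → (∑ f ∈ U.powerset, g f ≤ t * (K * D)) →
      (∀ J : Finset ℕ, J.Nonempty → deg U g J ≤ (C + K) * D * τ ^ J.card) →
      WCov p S (fun I => I ⊆ A ∪ T ∧ Ind w I ∧ Ind g I) U (x⁻¹ ^ q' * (1 + p * x) ^ a * n) γ := by
  classical
  have hC0 : 0 < C := by
    rw [hC]
    positivity
  intro a
  induction a using Nat.strong_induction_on with
  | _ a ih =>
  intro A T g q' t S hAa hA hT hqt hTt hg0 hgs hgl hgu hgc
  have hinv : (1 : ℝ) ≤ x⁻¹ := (one_le_inv₀ hx0).2 hx1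
  have hpx : 0 ≤ p * x := mul_nonneg hp hx0.le
  have hone : (1 : ℝ) ≤ x⁻¹ ^ q' * (1 + p * x) ^ a :=
    one_le_mul_of_one_le_of_one_le (one_le_pow₀ hinv) (one_le_pow₀ (by linarith))
  rcases Nat.eq_zero_or_pos q' with hq0 | hq0
  · -- the new hypergraph is complete
    have ht : t = q := by omega
    have hsp : Spread U s g (τ * D / 4) (4 * (C + K)) τ := by
      refine ⟨hg0, hgs, le_trans ?_ hgl, fun J hJ => ?_⟩
      · rw [ht]
        calc (U.card : ℝ) * (τ * D / 4) = (U.card * τ) * (D / 4) := by ring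
          _ ≤ q * (D / 4) := mul_le_mul_of_nonneg_right hq1 (by positivity)
      · calc deg U g J * τ ≤ ((C + K) * D * τ ^ J.card) * τ :=
              mul_le_mul_of_nonneg_right (hgc J hJ) hτ.le
          _ = 4 * (C + K) * (τ * D / 4) * τ ^ J.card := by ring
    refine (IH g S hsp).mono ?_ (le_mul_of_one_le_left (by linarith) hone) le_rfl
    rintro I - ⟨h1, _, h3⟩
    exact ⟨h1.trans (union_subset hA hT), h3⟩
  · by_cases hst : ∀ v ∈ A, deg U (act U w g (C * D) τ A) {v} < D / 4
    · -- stalled
      have htq : (t : ℝ) ≤ q := by exact_mod_cast (by omega : t ≤ q)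
      have h1 := stalled hw hA hD hK hτ hC hg0 hgs hgu (htq.trans hq2) hst
      refine (WCov.one (C := A ∪ T) (union_subset hA hT) ?_ (fun I hI => hI.1)).mono
        (fun I _ hI => hI) ?_ le_rfl
      · have h2 : ((A ∪ T).card : ℝ) ≤ A.card + T.card := by exact_mod_cast card_union_le A T
        have h3 : (T.card : ℝ) ≤ t := by exact_mod_cast hTt
        linarith
      · exact one_le_mul_of_one_le_of_one_le hone hn
    · push Not at hst
      obtain ⟨v, hvA, hv⟩ := hst
      have hvU := hA hvA
      have hcardA : (A.erase v).card = a - 1 := by rw [card_erase_of_mem hvA, hAa]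
      have ha1 : 1 ≤ a := by
        rw [← hAa]
        exact card_pos.2 ⟨v, hvA⟩
      have hlt : a - 1 < a := by omega
      -- `v` is not in `I`
      have hL := ih (a - 1) hlt (A.erase v) T g q' t S hcardA ((erase_subset v A).trans hA) hT hqt
        hTt hg0 hgs hgl hgu hgc
      -- `v` is in `I`
      set b := act U w g (C * D) τ A with hb
      have hb0 : ∀ e, 0 ≤ b e := act_nonneg hw.nonneg
      have hbw : ∀ e, b e ≤ w e := act_le hw.nonneg
      set l : Finset ℕ → ℝ := fun f => if v ∉ f then b (insert v f) else 0 with hl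
      have hl0 : ∀ f, 0 ≤ l f := fun f => by
        rw [hl]
        simp only
        by_cases h : v ∉ f
        · rw [if_pos h]
          exact hb0 _
        · rw [if_neg h]
      have hdl : ∀ J : Finset ℕ, v ∉ J → deg U l J = deg U b (insert v J) := by
        intro J hJ
        rw [← link_sum hvU hJ b]
        rfl
      have hdl2 : ∀ J : Finset ℕ, v ∈ J → deg U l J = 0 := by
        intro J hJ
        unfold deg
        refine sum_eq_zero fun f _ => ?_
        split_ifs with h
        · rw [hl]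
          simp only
          rw [if_neg (not_not.2 (h hJ))]
        · rfl
      have hdadd : ∀ J : Finset ℕ, deg U (fun f => g f + l f) J = deg U g J + deg U l J := by
        intro J
        unfold deg
        rw [← sum_add_distrib]
        refine sum_congr rfl fun f _ => ?_
        split_ifs <;> ring
      have hdw : ∀ J : Finset ℕ, J.Nonempty → deg U w J ≤ K * D * τ ^ J.card / τ := by
        intro J hJ
        rw [le_div_iff₀ hτ]
        exact hw.codeg J hJ
      have htot : ∑ f ∈ U.powerset, l f = deg U b {v} := by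
        have h1 : deg U l ∅ = deg U b (insert v ∅) := hdl ∅ (notMem_empty v)
        rw [insert_empty_eq] at h1
        rw [← h1]
        unfold deg
        refine sum_congr rfl fun f _ => ?_
        rw [if_pos (empty_subset f)]
      have hR := fun S' => ih (a - 1) hlt (A.erase v) (insert v T) (fun f => g f + l f) (q' - 1)
        (t + 1) S'
        hcardA ((erase_subset v A).trans hA) (insert_subset hvU hT) (by omega)
        ((card_insert_le v T).trans (by omega)) (fun f => add_nonneg (hg0 f) (hl0 f)) ?_ ?_ ?_ ?_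
      · have hRP : ∀ I : Finset ℕ, v ∈ I → I ⊆ A ∪ T ∧ Ind w I ∧ Ind g I →
            I ⊆ A.erase v ∪ insert v T ∧ Ind w I ∧ Ind (fun f => g f + l f) I := by
          rintro I hvI ⟨h1, h2, h3⟩
          refine ⟨?_, h2, ?_⟩
          · intro y hy
            rcases mem_union.1 (h1 hy) with h | h
            · by_cases hyv : y = v
              · rw [hyv]
                exact mem_union_right _ (mem_insert_self v T)
              · exact mem_union_left _ (mem_erase.2 ⟨hyv, h⟩)
            · exact mem_union_right _ (mem_insert_of_mem h)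
          · intro f hf
            have h4 : l f = 0 := by
              rw [hl]
              simp only
              by_cases h : v ∉ f
              · rw [if_pos h]
                by_contra h5
                exact (act_ne h5).1 (h2 _ (insert_subset hvI hf))
              · rw [if_neg h]
            simp only
            rw [h3 f hf, h4, add_zero]
        have hbase0 : 0 ≤ x⁻¹ ^ (q' - 1) * (1 + p * x) ^ (a - 1) * n := by positivity
        by_cases hvS : v ∈ S
        · refine (hR S).mono (fun I hSI hI => hRP I (hSI hvS) hI) ?_ le_rfl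
          apply mul_le_mul_of_nonneg_right _ (by linarith)
          apply mul_le_mul
          · exact pow_le_pow_right₀ hinv (Nat.sub_le _ _)
          · exact pow_le_pow_right₀ (by linarith) (Nat.sub_le _ _)
          · positivity
          · positivity
        · refine (WCov.branch hp hvS hL (hR (insert v S))).mono ?_ (le_of_eq ?_) le_rfl
          · rintro I - ⟨h1, h2, h3⟩
            by_cases hvI : v ∈ I
            · right
              exact ⟨hvI, hRP I hvI ⟨h1, h2, h3⟩⟩
            · left
              refine ⟨?_, h2, h3⟩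
              intro y hy
              rcases mem_union.1 (h1 hy) with h | h
              · refine mem_union_left _ (mem_erase.2 ⟨?_, h⟩)
                rintro rfl
                exact hvI hy
              · exact mem_union_right _ h
          · obtain ⟨q2, rfl⟩ : ∃ q2, q' = q2 + 1 := ⟨q' - 1, by omega⟩
            obtain ⟨a2, rfl⟩ : ∃ a2, a = a2 + 1 := ⟨a - 1, by omega⟩
            simp only [Nat.add_sub_cancel]
            rw [pow_succ, pow_succ]
            field_simp
      · intro f hf
        by_cases h1 : g f = 0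
        · have h2 : l f ≠ 0 := by
            intro h3
            exact hf (by rw [h1, h3, add_zero])
          rw [hl] at h2
          simp only at h2
          by_cases h4 : v ∉ f
          · rw [if_pos h4] at h2
            obtain ⟨h5, h6, _⟩ := act_ne h2
            obtain ⟨h7, h8⟩ := hw.supp _ h5
            refine ⟨(subset_insert v f).trans h7, ?_⟩
            rw [card_insert_of_notMem h4] at h8
            omega
          · rw [if_neg h4] at h2
            exact absurd rfl h2
        · exact hgs f h1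
      · rw [sum_add_distrib, htot]
        push_cast
        linarith
      · rw [sum_add_distrib, htot]
        have h1 : deg U b {v} ≤ deg U w {v} := deg_mono hbw _
        have h2 := hdw {v} (singleton_nonempty v)
        rw [card_singleton, pow_one, mul_div_assoc, div_self hτ.ne', mul_one] at h2
        push_cast
        linarith
      · intro J hJ
        rw [hdadd J]
        by_cases hvJ : v ∈ J
        · rw [hdl2 J hvJ, add_zero]
          exact hgc J hJ
        · rw [hdl J hvJ]
          by_cases hsat : deg U g J < C * D * τ ^ J.card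
          · have h1 : deg U b (insert v J) ≤ deg U w (insert v J) := deg_mono hbw _
            have h2 := hdw (insert v J) (insert_nonempty v J)
            rw [card_insert_of_notMem hvJ, pow_succ, ← mul_assoc, mul_div_assoc, div_self hτ.ne',
              mul_one] at h2
            calc deg U g J + deg U b (insert v J) ≤ C * D * τ ^ J.card + K * D * τ ^ J.card := by
                  linarith
              _ = _ := by ring
          · have h3 : deg U b (insert v J) = 0 := by
              unfold deg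
              refine sum_eq_zero fun e _ => ?_
              split_ifs with h
              · by_contra h5
                exact hsat ((act_ne h5).2.2 J ((subset_insert v J).trans h) hJ)
              · rfl
            rw [h3, add_zero]
            exact hgc J hJ

/-- **The container lemma with weights.** -/
theorem containers (s : ℕ) (hs : 1 ≤ s) : ∀ K : ℝ, 1 ≤ K → ∃ δ : ℝ, 0 < δ ∧ δ ≤ 1 ∧
    ∃ τ₀ : ℝ, 0 < τ₀ ∧ τ₀ ≤ 1 ∧
    ∀ (U : Finset ℕ) (w : Finset ℕ → ℝ) (D τ x p : ℝ) (q : ℕ) (S : Finset ℕ), 0 < D → 0 < τ →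
      τ ≤ τ₀ → U.card * τ ≤ q → (q : ℝ) ≤ 2 * τ * U.card → 0 < x → x ≤ 1 → 0 ≤ p →
      Spread U s w D K τ →
      WCov p S (fun I => I ⊆ U ∧ Ind w I) U ((x⁻¹ ^ q * (1 + p * x) ^ U.card) ^ (s - 1))
        ((1 - δ) * U.card) := by
  classical
  induction s, hs using Nat.le_induction with
  | base =>
    intro K hK
    refine ⟨1 / K, by positivity, ?_, 1, one_pos, le_rfl, ?_⟩
    · rw [div_le_one (by linarith)]
      exact hK
    intro U w D τ x p q S hD hτ _ _ _ _ _ _ hw
    rw [Nat.sub_self, pow_zero]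
    refine (WCov.one (C := U.filter fun v => w {v} = 0) (filter_subset _ _) ?_ ?_).mono
      (P := fun I => I ⊆ U ∧ Ind w I) (fun I _ hI => hI) le_rfl le_rfl
    · have h1 : ∑ e ∈ U.powerset, w e ≤ ∑ v ∈ U.filter (fun v => ¬ w {v} = 0), deg U w {v} := by
        refine total_le_sum_deg hw.nonneg fun e he => ?_
        obtain ⟨h2, h3⟩ := hw.supp e he
        obtain ⟨y, rfl⟩ := card_eq_one.1 h3
        refine ⟨?_, singleton_nonempty y⟩
        rw [singleton_subset_iff, mem_filter]
        exact ⟨h2 (mem_singleton_self y), he⟩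
      have h2 : ∑ v ∈ U.filter (fun v => ¬ w {v} = 0), deg U w {v} ≤
          (U.filter (fun v => ¬ w {v} = 0)).card * (K * D) := by
        rw [← nsmul_eq_mul, ← sum_const]
        refine sum_le_sum fun v _ => ?_
        have := hw.codeg {v} (singleton_nonempty v)
        rw [card_singleton, pow_one] at this
        exact le_of_mul_le_mul_right this hτ
      have h3 : ((U.filter fun v => w {v} = 0).card : ℝ) +
          (U.filter (fun v => ¬ w {v} = 0)).card = U.card := by
        exact_mod_cast card_filter_add_card_filter_not (s := U) (fun v => w {v} = 0)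
      have h4 : (U.card : ℝ) * D ≤ ((U.filter (fun v => ¬ w {v} = 0)).card * K) * D := by
        have := hw.total
        linarith
      have h5 := le_of_mul_le_mul_right h4 hD
      have h6 : (U.card : ℝ) / K ≤ (U.filter (fun v => ¬ w {v} = 0)).card := by
        rw [div_le_iff₀ (by linarith)]
        exact h5
      have h7 : (1 - 1 / K) * U.card = (U.card : ℝ) - U.card / K := by ring
      rw [h7]
      linarith
    · rintro I ⟨h1, h2⟩ v hv
      rw [mem_filter]
      exact ⟨h1 hv, h2 {v} (singleton_subset_iff.2 hv)⟩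
  | succ s hs ih =>
    intro K hK
    set C : ℝ := 2 ^ (s + 3) * K ^ 2 with hC
    have hC0 : 0 < C := by positivity
    obtain ⟨δ, hδ0, hδ1, τ₀, hτ₀, hτ₁, hmain⟩ := ih (4 * (C + K)) (by linarith)
    refine ⟨min δ (1 / (4 * K)), lt_min hδ0 (by positivity), (min_le_left _ _).trans hδ1,
      min τ₀ (1 / (8 * K)), lt_min hτ₀ (by positivity), (min_le_left _ _).trans hτ₁, ?_⟩
    intro U w D τ x p q S hD hτ hτle hq1 hq2 hx0 hx1 hp hw
    have hτ1 : τ ≤ 1 := hτle.trans ((min_le_left _ _).trans hτ₁)
    have hU0 : (0 : ℝ) ≤ U.card := Nat.cast_nonneg _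
    set n : ℝ := (x⁻¹ ^ q * (1 + p * x) ^ U.card) ^ (s - 1) with hn
    have hpx : 0 ≤ p * x := mul_nonneg hp hx0.le
    have hbase : 1 ≤ x⁻¹ ^ q * (1 + p * x) ^ U.card :=
      one_le_mul_of_one_le_of_one_le (one_le_pow₀ ((one_le_inv₀ hx0).2 hx1))
        (one_le_pow₀ (by linarith))
    have hn1 : 1 ≤ n := one_le_pow₀ hbase
    set γ : ℝ := (1 - min δ (1 / (4 * K))) * U.card with hγ
    have hγ1 : (1 - δ) * U.card ≤ γ := by
      rw [hγ]
      refine mul_le_mul_of_nonneg_right ?_ hU0
      have := min_le_left δ (1 / (4 * K))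
      linarith
    have hγ2 : (U.card : ℝ) - U.card / (2 * K) + q ≤ γ := by
      have h1 : τ ≤ 1 / (8 * K) := hτle.trans (min_le_right _ _)
      have h2 : (q : ℝ) ≤ U.card / (4 * K) := by
        refine hq2.trans ?_
        calc 2 * τ * U.card ≤ 2 * (1 / (8 * K)) * U.card := by
              refine mul_le_mul_of_nonneg_right ?_ hU0
              linarith
          _ = U.card / (4 * K) := by
              field_simp
              ring
      have h3 : (1 - 1 / (4 * K)) * U.card ≤ γ := by
        rw [hγ]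
        refine mul_le_mul_of_nonneg_right ?_ hU0
        have := min_le_right δ (1 / (4 * K))
        linarith
      refine le_trans ?_ h3
      have h4 : (1 - 1 / (4 * K)) * U.card = (U.card : ℝ) - U.card / (2 * K) + U.card / (4 * K) := by
        field_simp
        ring
      rw [h4]
      linarith
    have h := phase hw hD hK hτ hτ1 hq1 hq2 hC hγ2 hn1 hx0 hx1 hp
      (fun g S' hg => (hmain U g (τ * D / 4) τ x p q S' (by positivity) hτ
        (hτle.trans (min_le_left _ _)) hq1 hq2 hx0 hx1 hp hg).mono (fun I _ hI => hI) le_rfl hγ1)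
      U.card U ∅ (fun _ => 0) q 0 S rfl (Subset.refl U) (empty_subset U) (by omega) (by simp)
      (fun _ => le_rfl) (fun f hf => absurd rfl hf) (by simp) (by simp) ?_
    · refine h.mono ?_ (le_of_eq ?_) le_rfl
      · rintro I - ⟨h1, h2⟩
        exact ⟨h1.trans subset_union_left, h2, fun _ _ => rfl⟩
      · rw [hn, Nat.add_sub_cancel]
        obtain ⟨s', rfl⟩ : ∃ s', s = s' + 1 := ⟨s - 1, by omega⟩
        rw [Nat.add_sub_cancel, pow_succ]
        ring
    · intro J _
      have h1 : deg U (fun _ => (0 : ℝ)) J = 0 := by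
        unfold deg
        exact sum_eq_zero fun e _ => by split_ifs <;> rfl
      rw [h1]
      positivity

end Pool.Agent.L5helper45.WC
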